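import Pool.Agent.U536.CF.TN
import Pool.Agent.U536.DS.TN
import Pool.Agent.U86.LinkQ
import Pool.Agent.Results.MP_0704bf_ag.BoundedHodgeTensors

/-!
# Rational points given by divisors of the values of multiplicative functions are outside the Hodge locus for tensors of
# bounded order and height

Let `V` be a polarised variation of Hodge structure over an open subset of `ℂ ^ n` (a chart of `S`), of any weight and with
any monodromy group and period map, such that the functions algebraic over `ℂ(x)` in `ℂ(x, P)` are rational. A point is in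
the Hodge locus if and only if some Hodge tensor has an infinite orbit under the monodromy group.

Let `F_0, …, F_n` be positive multiplicative functions of at most polynomial growth with `F_i(p) ≤ M p` for the large
primes `p`, with different values at different large primes; for example Euler's function or the sum of the divisors. There
are `η > 0` and `ρ < 1`, which depend only on `n`, such that for all `V`, `k ≥ 1`, `F_i`, all `μ < b < 1` and
`0 ≤ c < 2 b - 1` and all large `N`, the following holds for ALL polarised Hodge structures `M₀` of dimension at most `k`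
(for example `M₀ = 0`) for all but `N ^ (n + 1) exp (-(log N)^c)` of the tuples `(m_0, …, m_n)` of positive integers `≤ N`.
Let `v` be a tuple of integers `v_i ≥ exp ((log N)^b)` such that `gcd(v_i, F_i(m_i)) ≥ v_j^ρ` for all `i`, `j`, or such that
`v_i ≥ v_j^ρ` and `v_i = p s + q t` with divisors `s`, `t` of `F_i(m_i)` and integers `|p|, |q| ≤ exp ((log N)^μ)`. For ALL
integers `x_i ≠ 0` and `y_i` which are bounded in absolute value by `v_l ^ η` for some `l`, the following holds for the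
integers `α_i = x_i v_i + y_i`, `α_0 ≠ 0`, and the rational point `a = (α_1 / α_0, …, α_n / α_0)`, if it is in `U`, of norm
at most `k` and at distance at least `1 / k` from the complement of `U`: ALL Hodge tensors of `M₀ ⊕ V_a` of order at most
`k` and of height at most `max |α_i| ^ k` have finite orbits; so `a` is not in the Hodge locus by such tensors.

Proof. By `BoundedHodgeTensors` of `MP_0704bf_ag` the exceptional rational points of height at most `T` lie on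
`C T ^ (1/2)` hypersurfaces of bounded degree; so the tuples `α` in `[-T, T] ^ (n + 1)` which give such points number at
most `C' T ^ (n + 1/2)`. The theorems `common_near` and `comb_near` show that such a set contains the tuple `α` for few
tuples `m` only, uniformly in the set.
-/

set_option autoImplicit false

namespace Pool.Agent.Results.MP_cb64b0_ag.DivisorsOffHodgeLocus

open Pool.Agent.N733.TG (LM lm_totient lm_sigma)
open Pool.Agent.U536.CF (CommonT commonT_of_dvd common_near)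
open Pool.Agent.U536.DS (CombT combT_pm comb_near)
open Pool.Agent.U543.HT (Polarized Variation Auts IsHodge orbit Exceptional)
open Pool.Agent.U543.GD (Inner Covered)
open Pool.Agent.U86.LQ (point height_mono div_mem_height)
open Pool.Agent.U86.RC (Quot quot_count)

variable {ι : Type} [Fintype ι] [DecidableEq ι]

/-- If the point `x = (α_1 / α_0, …, α_n / α_0)` is in `U`, of norm at most `k` and at distance at least `1 / k` from the
complement of `U`, then all Hodge tensors of `M₀ ⊕ V_x` of order at most `k` and of height at most `|α_i| ^ k`, for all `i`,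
have finite orbits under `Auts U P S`. -/
def FiniteOrbits {n : ℕ} (wt : ℤ) (w : ι → ℤ) (S : Matrix ι ι ℤ) (U : Set (Fin n → ℂ))
    (P : (Fin n → ℂ) → Matrix ι ι ℂ) (k : ℕ) {r : ℕ} (w₀ : Fin r → ℤ) (C₀ : Matrix (Fin r) (Fin r) ℂ)
    (α : Fin (n + 1) → ℤ) : Prop :=
  point α ∈ Inner U k → ∀ i, ∀ m ≤ k, ∀ v : (Fin m → Fin r ⊕ ι) → ℤ, (∀ I, |(v I : ℝ)| ≤ |(α i : ℝ)| ^ k) →
    IsHodge wt (Sum.elim w₀ w) (Pool.Agent.U543.GD.sum C₀ (P (point α))) v → (orbit (Auts U P S) v).Finite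

lemma exc_mono {n : ℕ} {wt : ℤ} {w : ι → ℤ} {S : Matrix ι ι ℤ} {U : Set (Fin n → ℂ)}
    {P : (Fin n → ℂ) → Matrix ι ι ℂ} {r : ℕ} {w₀ : Fin r → ℤ}
    {C₀ : Matrix (Fin r) (Fin r) ℂ} {k : ℕ} (T T' : ℝ) (hT : T ≤ T') (hT0 : 0 ≤ T) :
    Exceptional wt w S U P k ℚ (algebraMap ℚ ℂ) w₀ C₀ T ⊆ Exceptional wt w S U P k ℚ (algebraMap ℚ ℂ) w₀ C₀ T' := by
  rintro s ⟨h1, h2, m, hm, v, h3, h4, h5⟩
  exact ⟨fun j => height_mono hT (h1 j), h2, m, hm, v, fun I => (h3 I).trans (pow_le_pow_left₀ hT0 hT k), h4, h5⟩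

lemma finite_of {n : ℕ} {wt : ℤ} {w : ι → ℤ} {S : Matrix ι ι ℤ} {U : Set (Fin n → ℂ)}
    {P : (Fin n → ℂ) → Matrix ι ι ℂ} {r : ℕ} {w₀ : Fin r → ℤ}
    {C₀ : Matrix (Fin r) (Fin r) ℂ} {k : ℕ} {α : Fin (n + 1) → ℤ} (h0 : α 0 ≠ 0)
    (h : α ∉ Quot (fun T => Exceptional wt w S U P k ℚ (algebraMap ℚ ℂ) w₀ C₀ T)) :
    FiniteOrbits wt w S U P k w₀ C₀ α := by
  intro hin i m hm v hv hH
  by_contra hinf
  refine h ⟨h0, ?_⟩
  obtain ⟨i₀, -, hi₀⟩ := Finset.exists_max_image Finset.univ (fun i => |α i|) ⟨i, Finset.mem_univ i⟩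
  obtain ⟨T, hT⟩ : ∃ T : ℕ, T = (α i₀).natAbs := ⟨_, rfl⟩
  have hT1 : (T : ℤ) = |α i₀| := by rw [hT]; exact Int.natCast_natAbs _
  have hle : ∀ i, |α i| ≤ (T : ℤ) := fun i => by rw [hT1]; exact hi₀ i (Finset.mem_univ i)
  have hleR : ∀ i, |(α i : ℝ)| ≤ (T : ℝ) := fun i => by exact_mod_cast hle i
  have e : (fun j : Fin n => (algebraMap ℚ ℂ) ((α j.succ : ℚ) / (α 0 : ℤ))) = point α := by
    funext j
    simp [point]
  refine ⟨T, hle, ⟨i₀, hT1.symm⟩, fun j => div_mem_height h0 (hleR _) (hleR _), ?_, m, hm, v,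
    fun I => (hv I).trans (pow_le_pow_left₀ (abs_nonneg _) (hleR i) k), ?_, hinf⟩
  · show (fun j : Fin n => (algebraMap ℚ ℂ) ((α j.succ : ℚ) / (α 0 : ℤ))) ∈ Inner U k
    rw [e]
    exact hin
  · show IsHodge wt (Sum.elim w₀ w) (Pool.Agent.U543.GD.sum C₀
      (P fun j : Fin n => (algebraMap ℚ ℂ) ((α j.succ : ℚ) / (α 0 : ℤ)))) v
    rw [e]
    exact hH

/-- **Theorem.** Let `n ≥ 1`. There are `η > 0` and `0 < ρ < 1` with the following property. Let `V` be a polarised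
variation of Hodge structure of weight `wt` on the open subset `U` of `ℂ ^ n` (`Variation`), let `k ≥ 1`, let
`F_0, …, F_n` be positive multiplicative functions of polynomial growth, which are injective and at most `M p` at the large
primes `p` (`LM`), and `μ < b < 1`, `0 ≤ c < 2 b - 1`. For all large `N` and ALL polarised Hodge structures `M₀` of weight
`wt` and of dimension `r ≤ k`, with any period matrix `C₀`, for all but `N ^ (n + 1) exp (-(log N)^c)` of the tuples `m` of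
positive integers `m_0, …, m_n ≤ N`, for EVERY tuple `v` of integers `v_i ≥ exp ((log N)^b)`, (1) with
`gcd(v_i, F_i(m_i)) ≥ v_j ^ ρ` for all `i`, `j`, (2) with `v_i ≥ v_j ^ ρ` and `v_i = p s + q t`, for divisors `s`, `t` of
`F_i(m_i)` and integers `|p|, |q| ≤ exp ((log N)^μ)`, and ALL integers `x_i ≠ 0`, `y_i`, of absolute value at most
`v_l ^ η` for some `l`, the rational point `a = (α_1 / α_0, …, α_n / α_0)`, where `α_i = x_i v_i + y_i`, `α_0 ≠ 0`, has the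
property `FiniteOrbits`: if `a` is in `U`, of norm at most `k` and at distance at least `1 / k` from the complement of `U`,
then all Hodge tensors of `M₀ ⊕ V_a` of order at most `k` and of height at most `max |α_i| ^ k` have finite orbits under
`Auts U P S`. Euler's function and the sum of the divisors are examples of the `F_i`, and the tuples of divisors, resp. of
sums or differences of two divisors, `v_i` of `F_i(m_i)` with `v_i ≥ exp ((log N)^b)` and `v_i ≥ v_j ^ ρ` for all `i`, `j`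
are examples of `v`. -/
theorem result (n : ℕ) (hn : 1 ≤ n) :
    (∃ η ρ : ℝ, 0 < η ∧ 0 < ρ ∧ ρ < 1 ∧
      ∀ (ι : Type) [Fintype ι] [DecidableEq ι] (wt : ℤ) (w : ι → ℤ) (S : Matrix ι ι ℤ) (U : Set (Fin n → ℂ))
        (P : (Fin n → ℂ) → Matrix ι ι ℂ), Variation wt w S U P →
      ∀ k : ℕ, 1 ≤ k → ∀ F : Fin (n + 1) → ℕ → ℕ, (∀ i, LM (F i)) → ∀ b c : ℝ, b < 1 → 0 ≤ c → c < 2 * b - 1 →
      ∃ N₀ : ℕ, ∀ N : ℕ, N₀ ≤ N →
      ∀ r : ℕ, r ≤ k → ∀ (w₀ : Fin r → ℤ) (S₀ : Matrix (Fin r) (Fin r) ℤ) (C₀ : Matrix (Fin r) (Fin r) ℂ),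
        Polarized wt w₀ S₀ C₀ →
      ({m : Fin (n + 1) → ℕ | (∀ i, 1 ≤ m i ∧ m i ≤ N) ∧ ¬ ∀ v : Fin (n + 1) → ℕ, CommonT F b ρ N m v →
        ∀ x y α : Fin (n + 1) → ℤ,
          (∃ l, ∀ i, x i ≠ 0 ∧ |(x i : ℝ)| ≤ (v l : ℝ) ^ η ∧ |(y i : ℝ)| ≤ (v l : ℝ) ^ η) →
        (∀ i, α i = x i * (v i : ℤ) + y i) → α 0 ≠ 0 → FiniteOrbits wt w S U P k w₀ C₀ α}.ncard : ℝ) ≤
        (N : ℝ) ^ (n + 1) * Real.exp (-(Real.log N ^ c))) ∧
    (∃ η ρ : ℝ, 0 < η ∧ 0 < ρ ∧ ρ < 1 ∧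
      ∀ (ι : Type) [Fintype ι] [DecidableEq ι] (wt : ℤ) (w : ι → ℤ) (S : Matrix ι ι ℤ) (U : Set (Fin n → ℂ))
        (P : (Fin n → ℂ) → Matrix ι ι ℂ), Variation wt w S U P →
      ∀ k : ℕ, 1 ≤ k → ∀ F : Fin (n + 1) → ℕ → ℕ, (∀ i, LM (F i)) →
      ∀ μ b c : ℝ, μ < b → b < 1 → 0 ≤ c → c < 2 * b - 1 →
      ∃ N₀ : ℕ, ∀ N : ℕ, N₀ ≤ N →
      ∀ r : ℕ, r ≤ k → ∀ (w₀ : Fin r → ℤ) (S₀ : Matrix (Fin r) (Fin r) ℤ) (C₀ : Matrix (Fin r) (Fin r) ℂ),
        Polarized wt w₀ S₀ C₀ →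
      ({m : Fin (n + 1) → ℕ | (∀ i, 1 ≤ m i ∧ m i ≤ N) ∧ ¬ ∀ v : Fin (n + 1) → ℕ, CombT F b μ ρ N m v →
        ∀ x y α : Fin (n + 1) → ℤ,
          (∃ l, ∀ i, x i ≠ 0 ∧ |(x i : ℝ)| ≤ (v l : ℝ) ^ η ∧ |(y i : ℝ)| ≤ (v l : ℝ) ^ η) →
        (∀ i, α i = x i * (v i : ℤ) + y i) → α 0 ≠ 0 → FiniteOrbits wt w S U P k w₀ C₀ α}.ncard : ℝ) ≤
        (N : ℝ) ^ (n + 1) * Real.exp (-(Real.log N ^ c))) ∧
    (LM Nat.totient ∧ LM (fun m => ∑ d ∈ m.divisors, d)) ∧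
    (∀ (F : Fin (n + 1) → ℕ → ℕ) (b ρ : ℝ) (N : ℕ) (m v : Fin (n + 1) → ℕ),
      (∀ i, Real.exp (Real.log N ^ b) ≤ (v i : ℝ)) → (∀ i, v i ∣ F i (m i)) →
      (∀ i j, (v j : ℝ) ^ ρ ≤ (v i : ℝ)) → CommonT F b ρ N m v) ∧
    ∀ (F : Fin (n + 1) → ℕ → ℕ) (b μ ρ : ℝ) (N : ℕ) (m v : Fin (n + 1) → ℕ),
      (∀ i, Real.exp (Real.log N ^ b) ≤ (v i : ℝ)) →
      (∀ i, ∃ s t : ℕ, s ∣ F i (m i) ∧ t ∣ F i (m i) ∧ (v i = s + t ∨ v i = s - t ∨ v i = s)) →
      (∀ i j, (v j : ℝ) ^ ρ ≤ (v i : ℝ)) → CombT F b μ ρ N m v := by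
  refine ⟨?_, ?_, ⟨lm_totient, lm_sigma⟩, fun F b ρ N m v h1 h2 h3 => commonT_of_dvd h1 h2 h3,
    fun F b μ ρ N m v h1 h2 h3 => combT_pm h1 h2 h3⟩
  · obtain ⟨η, ρ, hη, hρ0, hρ1, hk⟩ := common_near (k := n + 1) (by omega) (c := 1 / 2) (by norm_num)
    refine ⟨η, ρ, hη, hρ0, hρ1, fun ι _ _ wt w S U P hV k hk1 F hF b c hb hc hcb => ?_⟩
    have : Nonempty (Fin n) := ⟨⟨0, hn⟩⟩
    obtain ⟨D, C, T₀, hC, hT₀, hcov⟩ :=
      (Pool.Agent.Results.MP_0704bf_ag.BoundedHodgeTensors.result (Fin n) ι wt w S U P hV).1 k (1 / 2) (by norm_num)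
    obtain ⟨N₀, hN₀⟩ := hk F hF (C * D * 3 ^ n + (3 * T₀) ^ (n + 1)) b c hb hc hcb
    refine ⟨N₀, fun N hN r hr w₀ S₀ C₀ hM₀ => ?_⟩
    have hN' := hN₀ N hN _ (fun T hT => quot_count hn D C T₀ hC hT₀
      (fun T => Exceptional wt w S U P k ℚ (algebraMap ℚ ℂ) w₀ C₀ T) (fun T T' h1 h2 => exc_mono T T' h1 h2)
      (fun T hT => (hcov T hT ℚ (by rw [Module.finrank_self]; exact hk1) (algebraMap ℚ ℂ) r hr w₀ S₀ C₀ hM₀).1) T hT)
    have hfin : {m : Fin (n + 1) → ℕ | ∀ i, 1 ≤ m i ∧ m i ≤ N}.Finite := by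
      refine (Set.Finite.pi' (fun _ : Fin (n + 1) => Set.finite_Icc 1 N)).subset (fun m hm i => ?_)
      exact Set.mem_Icc.2 (hm i)
    have hsub : {m : Fin (n + 1) → ℕ | (∀ i, 1 ≤ m i ∧ m i ≤ N) ∧
        ¬ ∀ v : Fin (n + 1) → ℕ, CommonT F b ρ N m v → ∀ x y α : Fin (n + 1) → ℤ,
          (∃ l, ∀ i, x i ≠ 0 ∧ |(x i : ℝ)| ≤ (v l : ℝ) ^ η ∧ |(y i : ℝ)| ≤ (v l : ℝ) ^ η) →
          (∀ i, α i = x i * (v i : ℤ) + y i) → α 0 ≠ 0 → FiniteOrbits wt w S U P k w₀ C₀ α} ⊆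
        {m : Fin (n + 1) → ℕ | (∀ i, 1 ≤ m i ∧ m i ≤ N) ∧
        ¬ ∀ v : Fin (n + 1) → ℕ, CommonT F b ρ N m v → ∀ x y : Fin (n + 1) → ℤ,
          (∃ l, ∀ i, x i ≠ 0 ∧ |(x i : ℝ)| ≤ (v l : ℝ) ^ η ∧ |(y i : ℝ)| ≤ (v l : ℝ) ^ η) →
          (fun i => x i * (v i : ℤ) + y i) ∉
            Quot (fun T => Exceptional wt w S U P k ℚ (algebraMap ℚ ℂ) w₀ C₀ T)} := by
      intro m hm
      refine ⟨hm.1, fun h => hm.2 (fun v hv x y α hxy hα h0 => ?_)⟩
      have h1 := h v hv x y hxy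
      have e : (fun i => x i * (v i : ℤ) + y i) = α := by
        funext i
        exact (hα i).symm
      rw [e] at h1
      exact finite_of h0 h1
    have hle := Set.ncard_le_ncard hsub (hfin.subset fun m hm => hm.1)
    exact ((Nat.cast_le (α := ℝ)).2 hle).trans hN'
  · obtain ⟨η, ρ, hη, hρ0, hρ1, hk⟩ := comb_near (k := n + 1) (by omega) (c := 1 / 2) (by norm_num)
    refine ⟨η, ρ, hη, hρ0, hρ1, fun ι _ _ wt w S U P hV k hk1 F hF μ b c hμ hb hc hcb => ?_⟩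
    have : Nonempty (Fin n) := ⟨⟨0, hn⟩⟩
    obtain ⟨D, C, T₀, hC, hT₀, hcov⟩ :=
      (Pool.Agent.Results.MP_0704bf_ag.BoundedHodgeTensors.result (Fin n) ι wt w S U P hV).1 k (1 / 2) (by norm_num)
    obtain ⟨N₀, hN₀⟩ := hk F hF (C * D * 3 ^ n + (3 * T₀) ^ (n + 1)) μ b c hμ hb hc hcb
    refine ⟨N₀, fun N hN r hr w₀ S₀ C₀ hM₀ => ?_⟩
    have hN' := hN₀ N hN _ (fun T hT => quot_count hn D C T₀ hC hT₀
      (fun T => Exceptional wt w S U P k ℚ (algebraMap ℚ ℂ) w₀ C₀ T) (fun T T' h1 h2 => exc_mono T T' h1 h2)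
      (fun T hT => (hcov T hT ℚ (by rw [Module.finrank_self]; exact hk1) (algebraMap ℚ ℂ) r hr w₀ S₀ C₀ hM₀).1) T hT)
    have hfin : {m : Fin (n + 1) → ℕ | ∀ i, 1 ≤ m i ∧ m i ≤ N}.Finite := by
      refine (Set.Finite.pi' (fun _ : Fin (n + 1) => Set.finite_Icc 1 N)).subset (fun m hm i => ?_)
      exact Set.mem_Icc.2 (hm i)
    have hsub : {m : Fin (n + 1) → ℕ | (∀ i, 1 ≤ m i ∧ m i ≤ N) ∧
        ¬ ∀ v : Fin (n + 1) → ℕ, CombT F b μ ρ N m v → ∀ x y α : Fin (n + 1) → ℤ,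
          (∃ l, ∀ i, x i ≠ 0 ∧ |(x i : ℝ)| ≤ (v l : ℝ) ^ η ∧ |(y i : ℝ)| ≤ (v l : ℝ) ^ η) →
          (∀ i, α i = x i * (v i : ℤ) + y i) → α 0 ≠ 0 → FiniteOrbits wt w S U P k w₀ C₀ α} ⊆
        {m : Fin (n + 1) → ℕ | (∀ i, 1 ≤ m i ∧ m i ≤ N) ∧
        ¬ ∀ v : Fin (n + 1) → ℕ, CombT F b μ ρ N m v → ∀ x y : Fin (n + 1) → ℤ,
          (∃ l, ∀ i, x i ≠ 0 ∧ |(x i : ℝ)| ≤ (v l : ℝ) ^ η ∧ |(y i : ℝ)| ≤ (v l : ℝ) ^ η) →
          (fun i => x i * (v i : ℤ) + y i) ∉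
            Quot (fun T => Exceptional wt w S U P k ℚ (algebraMap ℚ ℂ) w₀ C₀ T)} := by
      intro m hm
      refine ⟨hm.1, fun h => hm.2 (fun v hv x y α hxy hα h0 => ?_)⟩
      have h1 := h v hv x y hxy
      have e : (fun i => x i * (v i : ℤ) + y i) = α := by
        funext i
        exact (hα i).symm
      rw [e] at h1
      exact finite_of h0 h1
    have hle := Set.ncard_le_ncard hsub (hfin.subset fun m hm => hm.1)
    exact ((Nat.cast_le (α := ℝ)).2 hle).trans hN'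

end Pool.Agent.Results.MP_cb64b0_ag.DivisorsOffHodgeLocus
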